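import Pool.Agent.TH224.Cal.Step

set_option autoImplicit false

namespace Pool.Agent.TH224.Cal

open Metric Set Filter Topology

variable {E F : Type*} [NormedAddCommGroup E] [NormedSpace ℝ E]
  [NormedAddCommGroup F] [NormedSpace ℝ F]

/-- cut-off parameter of stage `k` -/
noncomputable def lam (y₀ : F) (R : ℝ) (k : ℕ) (y : F) : ℝ :=
  max 0 (min 1 (2 ^ (k + 1) * ‖y - y₀‖ / R - 1))

/-- the stages -/
noncomputable def sq (x₀ : E) (y₀ : F) (R : ℝ) (Φ : ℕ → E × F × ℝ → E) : ℕ → F → E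
  | 0, _ => x₀
  | (k + 1), y => Φ k (sq x₀ y₀ R Φ k y, y, lam y₀ R k y)

theorem lam_nonneg (y₀ : F) (R : ℝ) (k : ℕ) (y : F) : 0 ≤ lam y₀ R k y := le_max_left _ _

theorem lam_le_one (y₀ : F) (R : ℝ) (k : ℕ) (y : F) : lam y₀ R k y ≤ 1 :=
  max_le (by norm_num) (min_le_left _ _)

theorem lam_cont (y₀ : F) (R : ℝ) (k : ℕ) : Continuous (lam y₀ R k) := by
  unfold lam
  fun_prop

theorem lam_zero {y₀ : F} {R : ℝ} (hR : 0 < R) {k : ℕ} {y : F}
    (h : 2 ^ (k + 1) * ‖y - y₀‖ ≤ R) : lam y₀ R k y = 0 := by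
  unfold lam
  have h1 : 2 ^ (k + 1) * ‖y - y₀‖ / R ≤ 1 := by rw [div_le_one hR]; exact h
  apply max_eq_left
  exact (min_le_right _ _).trans (by linarith)

theorem lam_one {y₀ : F} {R : ℝ} (hR : 0 < R) {k : ℕ} {y : F}
    (h : R ≤ 2 ^ k * ‖y - y₀‖) : lam y₀ R k y = 1 := by
  unfold lam
  have h1 : 2 ≤ 2 ^ (k + 1) * ‖y - y₀‖ / R := by
    rw [le_div_iff₀ hR, pow_succ]; linarith
  rw [min_eq_left (by linarith)]
  norm_num

theorem assemble [CompleteSpace E] {f : E → F} {x₀ : E} {ρ C : ℝ} (hρ : 0 < ρ) (hC : 0 < C)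
    (hf : ContinuousOn f (closedBall x₀ ρ))
    (hcorr : ∀ ε : ℝ, 0 < ε → ∃ Φ : E × F × ℝ → E,
      ContinuousOn Φ (dom f x₀ C (ρ - 2 * C * ε)) ∧
      (∀ p ∈ dom f x₀ C (ρ - 2 * C * ε), p.2.2 = 0 → Φ p = p.1) ∧
      (∀ p ∈ dom f x₀ C (ρ - 2 * C * ε), ‖Φ p - p.1‖ + 2 * C * ‖p.2.1 - f (Φ p)‖ ≤
        2 * C * ‖p.2.1 - f p.1‖ + 4 * C * ε) ∧
      (∀ p ∈ dom f x₀ C (ρ - 2 * C * ε), p.2.2 = 1 → ‖p.2.1 - f (Φ p)‖ ≤ 2 * ε)) :
    ∃ V ∈ 𝓝 (f x₀), ∃ s : F → E, ∃ γ : ℝ, 0 < γ ∧ ContinuousOn s V ∧ s (f x₀) = x₀ ∧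
      (∀ y ∈ V, f (s y) = y) ∧ ∀ y ∈ V, ‖s y - x₀‖ ≤ γ * ‖y - f x₀‖ := by
  obtain ⟨R, hRdef⟩ : ∃ R : ℝ, R = ρ / (5 * C) := ⟨_, rfl⟩
  have hR : 0 < R := by rw [hRdef]; positivity
  have hρR : ρ = 5 * C * R := by rw [hRdef]; field_simp
  obtain ⟨e, he⟩ : ∃ e : ℕ → ℝ, ∀ k, e k = (R / 8) * (1 / 2) ^ k := ⟨_, fun _ => rfl⟩
  have he0 : ∀ k, 0 < e k := fun k => by rw [he]; positivity
  have hesucc : ∀ k, e (k + 1) = e k / 2 := fun k => by rw [he, he, pow_succ]; ring
  have hele : ∀ k, e k ≤ R / 8 := fun k => by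
    rw [he]
    have h1 : ((1 : ℝ) / 2) ^ k ≤ 1 := pow_le_one₀ (by norm_num) (by norm_num)
    nlinarith
  have hepow : ∀ k : ℕ, 2 ^ k * e k = R / 8 := fun k => by
    rw [he]
    have : (2 : ℝ) ^ k * (1 / 2) ^ k = 1 := by rw [← mul_pow]; norm_num
    calc (2 : ℝ) ^ k * (R / 8 * (1 / 2) ^ k) = R / 8 * (2 ^ k * (1 / 2) ^ k) := by ring
      _ = R / 8 := by rw [this, mul_one]
  choose! Φ' hΦ1 hΦ2 hΦ3 hΦ4 using hcorr
  obtain ⟨Φ, hΦ⟩ : ∃ Φ : ℕ → E × F × ℝ → E, ∀ k, Φ k = Φ' (e k) := ⟨_, fun _ => rfl⟩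
  set y₀ : F := f x₀ with hy₀
  obtain ⟨s, hs⟩ : ∃ s : ℕ → F → E, s = sq x₀ y₀ R Φ := ⟨_, rfl⟩
  have hs0 : ∀ y, s 0 y = x₀ := fun y => by rw [hs]; rfl
  have hss : ∀ k y, s (k + 1) y = Φ k (s k y, y, lam y₀ R k y) := fun k y => by rw [hs]; rfl
  -- main invariants
  have hD : ∀ (k : ℕ) (y : F), ‖y - y₀‖ ≤ R →
      ((2 ^ k * ‖y - y₀‖ ≤ R → s k y = x₀) ∧
       (R < 2 ^ k * ‖y - y₀‖ → ‖s k y - x₀‖ + 2 * C * ‖y - f (s k y)‖ ≤
          4 * C * ‖y - y₀‖ - 8 * C * e k)) →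
      (s k y, y, lam y₀ R k y) ∈ dom f x₀ C (ρ - 2 * C * e k) := by
    intro k y hy hP
    refine ⟨?_, lam_nonneg _ _ _ _, lam_le_one _ _ _ _⟩
    show ‖s k y - x₀‖ + 2 * C * ‖y - f (s k y)‖ ≤ ρ - 2 * C * e k
    have h8 := hele k
    have h9 := he0 k
    rcases le_or_gt (2 ^ k * ‖y - y₀‖) R with h | h
    · rw [hP.1 h, sub_self, norm_zero, ← hy₀, hρR]
      have h10 : 0 ≤ C * (R - ‖y - y₀‖) := mul_nonneg hC.le (by linarith)
      have h11 : 0 ≤ C * (R / 8 - e k) := mul_nonneg hC.le (by linarith)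
      have h12 : 0 < C * R := by positivity
      nlinarith
    · have := hP.2 h
      rw [hρR]
      have h10 : 0 ≤ C * (R - ‖y - y₀‖) := mul_nonneg hC.le (by linarith)
      have h11 : 0 ≤ C * (R / 8 - e k) := mul_nonneg hC.le (by linarith)
      have h12 : 0 < C * R := by positivity
      have h13 : 0 < C * e k := by positivity
      nlinarith
  have hP : ∀ (k : ℕ) (y : F), ‖y - y₀‖ ≤ R →
      ((2 ^ k * ‖y - y₀‖ ≤ R → s k y = x₀) ∧
       (R < 2 ^ k * ‖y - y₀‖ → ‖s k y - x₀‖ + 2 * C * ‖y - f (s k y)‖ ≤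
          4 * C * ‖y - y₀‖ - 8 * C * e k)) := by
    intro k y hy
    induction k with
    | zero =>
      refine ⟨fun _ => hs0 y, fun h => ?_⟩
      rw [pow_zero, one_mul] at h
      linarith
    | succ k ih =>
      have hdom := hD k y hy ih
      refine ⟨fun h => ?_, fun h => ?_⟩
      · have hk : 2 ^ k * ‖y - y₀‖ ≤ R := by
          have : (2 : ℝ) ^ k * ‖y - y₀‖ ≤ 2 ^ (k + 1) * ‖y - y₀‖ := by
            apply mul_le_mul_of_nonneg_right _ (norm_nonneg _)
            exact pow_le_pow_right₀ (by norm_num) (Nat.le_succ k)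
          linarith
        rw [hss, hΦ]
        rw [hΦ2 (e k) (he0 k) _ hdom (lam_zero hR h)]
        exact ih.1 hk
      · rw [hss, hΦ]
        have h3 := hΦ3 (e k) (he0 k) _ hdom
        simp only at h3
        set z := Φ' (e k) (s k y, y, lam y₀ R k y) with hz
        have e1 : z - x₀ = (z - s k y) + (s k y - x₀) := by abel
        have e2 : ‖z - x₀‖ ≤ ‖z - s k y‖ + ‖s k y - x₀‖ := by rw [e1]; exact norm_add_le _ _
        rw [hesucc]
        rcases le_or_gt (2 ^ k * ‖y - y₀‖) R with hk | hk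
        · have hsk := ih.1 hk
          rw [hsk] at h3 e2
          rw [sub_self, norm_zero] at e2
          rw [← hy₀] at h3
          have h4 : e k ≤ ‖y - y₀‖ / 4 := by
            have h5 := hepow (k + 1)
            rw [hesucc] at h5
            have h6 : (0 : ℝ) < 2 ^ (k + 1) := by positivity
            have h7 : 2 ^ (k + 1) * e k < 2 ^ (k + 1) * (‖y - y₀‖ / 4) := by linarith
            exact (lt_of_mul_lt_mul_left h7 h6.le).le
          have h8 : 0 ≤ C * (‖y - y₀‖ / 4 - e k) := mul_nonneg hC.le (by linarith)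
          nlinarith
        · have := ih.2 hk
          nlinarith
  have hdom : ∀ (k : ℕ) (y : F), ‖y - y₀‖ ≤ R →
      (s k y, y, lam y₀ R k y) ∈ dom f x₀ C (ρ - 2 * C * e k) := fun k y hy =>
    hD k y hy (hP k y hy)
  have hMk : ∀ (k : ℕ) (y : F), ‖y - y₀‖ ≤ R →
      ‖s k y - x₀‖ + 2 * C * ‖y - f (s k y)‖ ≤ 4 * C * ‖y - y₀‖ := by
    intro k y hy
    rcases le_or_gt (2 ^ k * ‖y - y₀‖) R with h | h
    · rw [(hP k y hy).1 h, sub_self, norm_zero, ← hy₀]
      have : 0 ≤ C * ‖y - y₀‖ := by positivity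
      nlinarith
    · have := (hP k y hy).2 h
      have h9 : 0 < C * e k := mul_pos hC (he0 k)
      linarith
  -- continuity of the stages
  have hscont : ∀ k, ContinuousOn (s k) (closedBall y₀ R) := by
    intro k
    induction k with
    | zero =>
      have : s 0 = fun _ => x₀ := funext hs0
      rw [this]
      exact continuousOn_const
    | succ k ih =>
      have : s (k + 1) = fun y => Φ k (s k y, y, lam y₀ R k y) := funext (hss k)
      rw [this]
      have h1 : ContinuousOn (fun y => (s k y, y, lam y₀ R k y)) (closedBall y₀ R) :=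
        ih.prodMk (continuousOn_id.prodMk (lam_cont y₀ R k).continuousOn)
      refine ContinuousOn.comp (t := dom f x₀ C (ρ - 2 * C * e k)) ?_ h1 ?_
      · rw [hΦ]; exact hΦ1 (e k) (he0 k)
      · intro y hy
        rw [mem_closedBall, dist_eq_norm] at hy
        exact hdom k y hy
  -- residuals and increments
  have hres : ∀ (k : ℕ) (y : F), ‖y - y₀‖ ≤ R → R ≤ 2 ^ k * ‖y - y₀‖ →
      ‖y - f (s (k + 1) y)‖ ≤ 2 * e k := by
    intro k y hy hk
    rw [hss, hΦ]
    exact hΦ4 (e k) (he0 k) _ (hdom k y hy) (lam_one hR hk)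
  have hmono : ∀ (j k : ℕ) (y : F), j ≤ k → R ≤ 2 ^ j * ‖y - y₀‖ → R ≤ 2 ^ k * ‖y - y₀‖ := by
    intro j k y hjk h
    refine h.trans (mul_le_mul_of_nonneg_right ?_ (norm_nonneg _))
    exact pow_le_pow_right₀ (by norm_num) hjk
  have hinc : ∀ (k : ℕ) (y : F), ‖y - y₀‖ ≤ R → R ≤ 2 ^ k * ‖y - y₀‖ →
      dist (s (k + 1) y) (s (k + 1 + 1) y) ≤ 6 * C * e k := by
    intro k y hy hk
    have h1 := hres k y hy hk
    have h3 := hΦ3 (e (k + 1)) (he0 _) _ (hdom (k + 1) y hy)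
    simp only at h3
    rw [dist_comm, dist_eq_norm]
    have h4 : s (k + 1 + 1) y = Φ' (e (k + 1)) (s (k + 1) y, y, lam y₀ R (k + 1) y) := by
      rw [hss (k + 1), hΦ]
    rw [← h4] at h3
    rw [hesucc] at h3
    have h5 : 0 ≤ 2 * C * ‖y - f (s (k + 1 + 1) y)‖ := by positivity
    have h6 : 2 * C * ‖y - f (s (k + 1) y)‖ ≤ 2 * C * (2 * e k) :=
      mul_le_mul_of_nonneg_left h1 (by positivity)
    linarith
  have hgeo : ∀ (j : ℕ) (y : F), ‖y - y₀‖ ≤ R → R ≤ 2 ^ j * ‖y - y₀‖ → ∀ k : ℕ,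
      dist (s (k + j + 1) y) (s (k + 1 + j + 1) y) ≤ (6 * C * (R / 8)) * (1 / 2) ^ k := by
    intro j y hy hj k
    have h1 := hinc (k + j) y hy (hmono j (k + j) y (Nat.le_add_left _ _) hj)
    have h2 : k + 1 + j + 1 = k + j + 1 + 1 := by ring
    rw [h2]
    refine h1.trans ?_
    rw [he, pow_add]
    have h3 : ((1 : ℝ) / 2) ^ j ≤ 1 := pow_le_one₀ (by norm_num) (by norm_num)
    have h4 : 0 < 6 * C * (R / 8) * (1 / 2) ^ k := by positivity
    nlinarith
  have hex : ∀ y : F, y ≠ y₀ → ∃ j : ℕ, R < 2 ^ j * ‖y - y₀‖ := by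
    intro y hy
    have h1 : 0 < ‖y - y₀‖ := norm_pos_iff.mpr (sub_ne_zero.mpr hy)
    obtain ⟨j, hj⟩ := pow_unbounded_of_one_lt (R / ‖y - y₀‖) (by norm_num : (1 : ℝ) < 2)
    refine ⟨j, ?_⟩
    rwa [div_lt_iff₀ h1] at hj
  have hlim : ∀ y : F, ‖y - y₀‖ ≤ R → ∃ l : E, Tendsto (fun k => s k y) atTop (𝓝 l) := by
    intro y hy
    by_cases h : y = y₀
    · refine ⟨x₀, ?_⟩
      have : (fun k => s k y) = fun _ => x₀ := by
        funext k
        refine (hP k y hy).1 ?_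
        rw [h, sub_self, norm_zero, mul_zero]
        exact hR.le
      rw [this]
      exact tendsto_const_nhds
    · obtain ⟨j, hj⟩ := hex y h
      have hc : CauchySeq (fun k => s (k + j + 1) y) :=
        cauchySeq_of_le_geometric (1 / 2) _ (by norm_num) (hgeo j y hy hj.le)
      obtain ⟨l, hl⟩ := cauchySeq_tendsto_of_complete hc
      refine ⟨l, ?_⟩
      have h2 : (fun k => s (k + j + 1) y) = fun k => (fun i => s i y) (k + (j + 1)) := by
        funext k; rfl
      rw [h2] at hl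
      exact (tendsto_add_atTop_iff_nat (j + 1)).mp hl
  choose! S hS using hlim
  have hS0 : S y₀ = x₀ := by
    have h1 := hS y₀ (by rw [sub_self, norm_zero]; exact hR.le)
    have h2 : (fun k => s k y₀) = fun _ => x₀ := by
      funext k
      refine (hP k y₀ (by rw [sub_self, norm_zero]; exact hR.le)).1 ?_
      rw [sub_self, norm_zero, mul_zero]
      exact hR.le
    rw [h2] at h1
    exact tendsto_nhds_unique h1 tendsto_const_nhds
  have hSb : ∀ y : F, ‖y - y₀‖ ≤ R → ‖S y - x₀‖ ≤ 4 * C * ‖y - y₀‖ := by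
    intro y hy
    have h1 : Tendsto (fun k => ‖s k y - x₀‖) atTop (𝓝 ‖S y - x₀‖) :=
      ((hS y hy).sub_const x₀).norm
    refine le_of_tendsto' h1 (fun k => ?_)
    have h2 := hMk k y hy
    have h3 : 0 ≤ 2 * C * ‖y - f (s k y)‖ := by positivity
    linarith
  have hunif : ∀ (j : ℕ) (y : F), ‖y - y₀‖ ≤ R → R ≤ 2 ^ j * ‖y - y₀‖ → ∀ k : ℕ,
      dist (s (k + j + 1) y) (S y) ≤ (6 * C * (R / 8)) * (1 / 2) ^ k / (1 - 1 / 2) := by
    intro j y hy hj k
    have h1 : Tendsto (fun k => s (k + j + 1) y) atTop (𝓝 (S y)) := by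
      have h2 : (fun k => s (k + j + 1) y) = fun k => (fun i => s i y) (k + (j + 1)) := by
        funext k; rfl
      rw [h2]
      exact (tendsto_add_atTop_iff_nat (j + 1)).mpr (hS y hy)
    exact dist_le_of_le_geometric_of_tendsto (1 / 2) _ (by norm_num) (hgeo j y hy hj) h1 k
  refine ⟨closedBall y₀ R, closedBall_mem_nhds y₀ hR, S, 4 * C, by positivity, ?_, hS0, ?_, ?_⟩
  · intro y hy
    have hy' : ‖y - y₀‖ ≤ R := by rwa [mem_closedBall, dist_eq_norm] at hy
    by_cases h : y = y₀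
    · subst h
      rw [ContinuousWithinAt, hS0]
      rw [tendsto_iff_norm_sub_tendsto_zero]
      have hb : Tendsto (fun z : F => 4 * C * ‖z - y₀‖) (𝓝[closedBall y₀ R] y₀) (𝓝 0) := by
        have h1 : Continuous (fun z : F => 4 * C * ‖z - y₀‖) := by fun_prop
        have h2 : Tendsto (fun z : F => 4 * C * ‖z - y₀‖) (𝓝 y₀) (𝓝 (4 * C * ‖y₀ - y₀‖)) :=
          h1.tendsto y₀
        rw [sub_self, norm_zero, mul_zero] at h2
        exact h2.mono_left nhdsWithin_le_nhds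
      refine tendsto_of_tendsto_of_tendsto_of_le_of_le' tendsto_const_nhds hb
        (Eventually.of_forall fun _ => norm_nonneg _) ?_
      filter_upwards [self_mem_nhdsWithin] with z hz
      rw [mem_closedBall, dist_eq_norm] at hz
      exact hSb z hz
    · obtain ⟨j, hj⟩ := hex y h
      set W : Set F := {z | R < 2 ^ j * ‖z - y₀‖} with hW
      have hWo : IsOpen W := isOpen_lt continuous_const (by fun_prop)
      have hcW : ContinuousOn S (closedBall y₀ R ∩ W) := by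
        have htu : TendstoUniformlyOn (fun k => s (k + j + 1)) S atTop (closedBall y₀ R ∩ W) := by
          rw [Metric.tendstoUniformlyOn_iff]
          intro δ hδ
          have h1 : Tendsto (fun k : ℕ => (6 * C * (R / 8)) * (1 / 2 : ℝ) ^ k / (1 - 1 / 2))
              atTop (𝓝 ((6 * C * (R / 8)) * 0 / (1 - 1 / 2))) := by
            refine Tendsto.div_const (Tendsto.const_mul _ ?_) _
            exact tendsto_pow_atTop_nhds_zero_of_lt_one (by norm_num) (by norm_num)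
          rw [mul_zero, zero_div] at h1
          filter_upwards [h1.eventually (gt_mem_nhds hδ)] with k hk z hz
          rw [dist_comm]
          have hz1 : ‖z - y₀‖ ≤ R := by
            have := hz.1
            rwa [mem_closedBall, dist_eq_norm] at this
          exact (hunif j z hz1 (le_of_lt hz.2) k).trans_lt hk
        exact htu.continuousOn (Frequently.of_forall fun k =>
          (hscont (k + j + 1)).mono inter_subset_left)
      have h1 : ContinuousWithinAt S (closedBall y₀ R ∩ W) y := hcW y ⟨hy, hj⟩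
      refine h1.mono_of_mem_nhdsWithin ?_
      exact inter_mem self_mem_nhdsWithin (mem_nhdsWithin_of_mem_nhds (hWo.mem_nhds hj))
  · intro y hy
    have hy' : ‖y - y₀‖ ≤ R := by rwa [mem_closedBall, dist_eq_norm] at hy
    by_cases h : y = y₀
    · rw [h, hS0]
    · obtain ⟨j, hj⟩ := hex y h
      have hin : ∀ k, s k y ∈ closedBall x₀ ρ := by
        intro k
        rw [mem_closedBall, dist_eq_norm]
        have h2 := hMk k y hy'
        have h3 : 0 ≤ 2 * C * ‖y - f (s k y)‖ := by positivity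
        have h4 : C * ‖y - y₀‖ ≤ C * R := mul_le_mul_of_nonneg_left hy' hC.le
        have h5 : 0 < C * R := by positivity
        linarith
      have hinS : S y ∈ closedBall x₀ ρ := by
        rw [mem_closedBall, dist_eq_norm]
        have h2 := hSb y hy'
        have h4 : C * ‖y - y₀‖ ≤ C * R := mul_le_mul_of_nonneg_left hy' hC.le
        have h5 : 0 < C * R := by positivity
        linarith
      have h1 : Tendsto (fun k => f (s k y)) atTop (𝓝 (f (S y))) := by
        have h2 : Tendsto (fun k => s k y) atTop (𝓝[closedBall x₀ ρ] (S y)) :=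
          tendsto_nhdsWithin_iff.mpr ⟨hS y hy', Eventually.of_forall hin⟩
        exact (hf (S y) hinS).tendsto.comp h2
      have h2 : Tendsto (fun k => f (s (k + (j + 1)) y)) atTop (𝓝 (f (S y))) :=
        (tendsto_add_atTop_iff_nat (f := fun k => f (s k y)) (j + 1)).mpr h1
      have h3 : Tendsto (fun k => f (s (k + (j + 1)) y)) atTop (𝓝 y) := by
        rw [tendsto_iff_norm_sub_tendsto_zero]
        have h4 : Tendsto (fun k : ℕ => 2 * (R / 8) * (1 / 2 : ℝ) ^ k) atTop (𝓝 0) := by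
          have := (tendsto_pow_atTop_nhds_zero_of_lt_one (r := (1 / 2 : ℝ))
            (by norm_num) (by norm_num)).const_mul (2 * (R / 8))
          rwa [mul_zero] at this
        refine squeeze_zero (fun _ => norm_nonneg _) (fun k => ?_) h4
        rw [norm_sub_rev]
        have h5 := hres (k + j) y hy' (hmono j (k + j) y (Nat.le_add_left _ _) hj.le)
        have h6 : k + (j + 1) = k + j + 1 := by ring
        rw [h6]
        refine h5.trans ?_
        rw [he, pow_add]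
        have h7 : ((1 : ℝ) / 2) ^ j ≤ 1 := pow_le_one₀ (by norm_num) (by norm_num)
        have h8 : 0 < 2 * (R / 8) * (1 / 2 : ℝ) ^ k := by positivity
        nlinarith
      exact tendsto_nhds_unique h2 h3
  · intro y hy
    rw [mem_closedBall, dist_eq_norm] at hy
    exact hSb y hy

end Pool.Agent.TH224.Cal
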