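import Mathlib

set_option autoImplicit false

namespace Pool.Agent.TH224.Cal

open Metric Set Filter Topology
open scoped NNReal

/-- convex hull of a compact set in finite dimension (argument as in the starting file
`Helper150/Cb/CompactHull.lean`) -/
theorem compact_hull {E : Type*} [NormedAddCommGroup E] [NormedSpace ℝ E]
    [FiniteDimensional ℝ E] {s : Set E} (hs : IsCompact s) : IsCompact (convexHull ℝ s) := by
  classical
  rcases s.eq_empty_or_nonempty with rfl | ⟨x0, hx0⟩
  · rw [convexHull_empty]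
    exact isCompact_empty
  obtain ⟨n, hn⟩ : ∃ n, n = Module.finrank ℝ E + 1 := ⟨_, rfl⟩
  have hK : IsCompact ((stdSimplex ℝ (Fin n)) ×ˢ (Set.pi Set.univ (fun _ : Fin n => s))) :=
    (isCompact_stdSimplex ℝ (Fin n)).prod (isCompact_univ_pi fun _ => hs)
  have hcont : Continuous (fun p : (Fin n → ℝ) × (Fin n → E) => ∑ i, p.1 i • p.2 i) := by
    refine continuous_finsetSum _ fun i _ => ?_
    exact ((continuous_apply i).comp continuous_fst).smul ((continuous_apply i).comp continuous_snd)
  have heq : convexHull ℝ s = (fun p : (Fin n → ℝ) × (Fin n → E) => ∑ i, p.1 i • p.2 i) ''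
      ((stdSimplex ℝ (Fin n)) ×ˢ (Set.pi Set.univ (fun _ : Fin n => s))) := by
    apply Set.Subset.antisymm
    · intro x hx
      obtain ⟨ι, hι, z, w, hz, hai, hw0, hw1, hwz⟩ := eq_pos_convex_span_of_mem_convexHull hx
      have hcard : Fintype.card ι ≤ Fintype.card (Fin n) := by
        have h1 := hai.card_le_finrank_succ
        have h2 := Submodule.finrank_le (vectorSpan ℝ (Set.range z))
        rw [Fintype.card_fin, hn]
        omega
      obtain ⟨e⟩ := Function.Embedding.nonempty_of_card_le hcard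
      refine ⟨(Function.extend e w 0, Function.extend e z (fun _ => x0)), ⟨⟨?_, ?_⟩, ?_⟩, ?_⟩
      · intro j
        show (0 : ℝ) ≤ Function.extend e w 0 j
        by_cases hj : ∃ i, e i = j
        · obtain ⟨i, rfl⟩ := hj
          rw [e.injective.extend_apply]
          exact (hw0 i).le
        · rw [Function.extend_apply' _ _ _ hj]
          exact le_rfl
      · rw [← hw1]
        symm
        refine Fintype.sum_of_injective e e.injective _ _ ?_ ?_
        · intro j hj
          show Function.extend e w 0 j = 0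
          rw [Function.extend_apply' _ _ _ hj]
          rfl
        · intro i
          show w i = Function.extend e w 0 (e i)
          rw [e.injective.extend_apply]
      · intro j _
        by_cases hj : ∃ i, e i = j
        · obtain ⟨i, rfl⟩ := hj
          show Function.extend e z (fun _ => x0) (e i) ∈ s
          rw [e.injective.extend_apply]
          exact hz ⟨i, rfl⟩
        · show Function.extend e z (fun _ => x0) j ∈ s
          rw [Function.extend_apply' _ _ _ hj]
          exact hx0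
      · rw [← hwz]
        symm
        refine Fintype.sum_of_injective e e.injective _ _ ?_ ?_
        · intro j hj
          show Function.extend e w 0 j • Function.extend e z (fun _ => x0) j = 0
          rw [Function.extend_apply' w _ _ hj]
          simp
        · intro i
          show w i • z i = Function.extend e w 0 (e i) • Function.extend e z (fun _ => x0) (e i)
          rw [e.injective.extend_apply, e.injective.extend_apply]
    · rintro _ ⟨⟨w, z⟩, ⟨⟨hw0, hw1⟩, hz⟩, rfl⟩
      refine (convex_convexHull ℝ s).sum_mem (fun i _ => hw0 i) hw1 (fun i _ => ?_)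
      exact subset_convexHull ℝ s (hz i (Set.mem_univ i))
  rw [heq]
  exact hK.image hcont

section RightInv

variable {E F : Type*} [NormedAddCommGroup E] [InnerProductSpace ℝ E] [FiniteDimensional ℝ E]
  [NormedAddCommGroup F] [InnerProductSpace ℝ F] [FiniteDimensional ℝ F]

/-- right inverse of Moore and Penrose -/
noncomputable def rinv (A : E →L[ℝ] F) : F →L[ℝ] E :=
  haveI : CompleteSpace E := FiniteDimensional.complete ℝ E
  haveI : CompleteSpace F := FiniteDimensional.complete ℝ F
  (ContinuousLinearMap.adjoint A).comp (Ring.inverse (A.comp (ContinuousLinearMap.adjoint A)))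

theorem isUnit_of_surj [CompleteSpace E] [CompleteSpace F] {A : E →L[ℝ] F}
    (hA : Function.Surjective A) :
    IsUnit (A.comp (ContinuousLinearMap.adjoint A) : F →L[ℝ] F) := by
  have hinj : Function.Injective (A.comp (ContinuousLinearMap.adjoint A) : F →L[ℝ] F) := by
    rw [injective_iff_map_eq_zero]
    intro v hv
    have h1 : (ContinuousLinearMap.adjoint A) v = 0 := by
      rw [← inner_self_eq_zero (𝕜 := ℝ), ContinuousLinearMap.adjoint_inner_left]
      have : A ((ContinuousLinearMap.adjoint A) v) = 0 := hv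
      rw [this, inner_zero_right]
    obtain ⟨w, hw⟩ := hA v
    rw [← inner_self_eq_zero (𝕜 := ℝ)]
    calc inner ℝ v v = inner ℝ v (A w) := by rw [hw]
      _ = inner ℝ ((ContinuousLinearMap.adjoint A) v) w :=
          (ContinuousLinearMap.adjoint_inner_left A w v).symm
      _ = 0 := by rw [h1, inner_zero_left]
  rw [ContinuousLinearMap.isUnit_iff_bijective]
  refine ⟨hinj, ?_⟩
  have := LinearMap.injective_iff_surjective
    (f := ((A.comp (ContinuousLinearMap.adjoint A) : F →L[ℝ] F) : F →ₗ[ℝ] F))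
  exact this.mp hinj

theorem surj_of_isUnit [CompleteSpace E] [CompleteSpace F] {A : E →L[ℝ] F}
    (h : IsUnit (A.comp (ContinuousLinearMap.adjoint A) : F →L[ℝ] F)) :
    Function.Surjective A := by
  rw [ContinuousLinearMap.isUnit_iff_bijective] at h
  intro v
  obtain ⟨w, hw⟩ := h.2 v
  exact ⟨(ContinuousLinearMap.adjoint A) w, hw⟩

theorem cont_AA [CompleteSpace E] [CompleteSpace F] :
    Continuous (fun A : E →L[ℝ] F => (A.comp (ContinuousLinearMap.adjoint A) : F →L[ℝ] F)) := by
  have h1 : Continuous (fun A : E →L[ℝ] F => ContinuousLinearMap.adjoint A) :=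
    ContinuousLinearMap.adjoint.continuous
  exact continuous_id.clm_comp h1

theorem isOpen_surj : IsOpen {A : E →L[ℝ] F | Function.Surjective A} := by
  have : CompleteSpace E := FiniteDimensional.complete ℝ E
  have : CompleteSpace F := FiniteDimensional.complete ℝ F
  have h1 : {A : E →L[ℝ] F | Function.Surjective A} =
      (fun A : E →L[ℝ] F => (A.comp (ContinuousLinearMap.adjoint A) : F →L[ℝ] F)) ⁻¹'
        {x | IsUnit x} := by
    ext A
    exact ⟨fun h => isUnit_of_surj h, fun h => surj_of_isUnit h⟩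
  rw [h1]
  exact Units.isOpen.preimage cont_AA

theorem rinv_right {A : E →L[ℝ] F} (hA : Function.Surjective A) (v : F) :
    A (rinv A v) = v := by
  have : CompleteSpace E := FiniteDimensional.complete ℝ E
  have : CompleteSpace F := FiniteDimensional.complete ℝ F
  have h1 := isUnit_of_surj hA
  have h2 := Ring.mul_inverse_cancel _ h1
  have h3 := congrArg (fun T : F →L[ℝ] F => T v) h2
  exact h3

theorem rinv_continuousAt {A : E →L[ℝ] F} (hA : Function.Surjective A) :
    ContinuousAt (fun B : E →L[ℝ] F => rinv B) A := by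
  have : CompleteSpace E := FiniteDimensional.complete ℝ E
  have : CompleteSpace F := FiniteDimensional.complete ℝ F
  have h1 : ContinuousAt (fun B : E →L[ℝ] F => ContinuousLinearMap.adjoint B) A :=
    (ContinuousLinearMap.adjoint.continuous).continuousAt
  have h2 : ContinuousAt (fun B : E →L[ℝ] F =>
      Ring.inverse (B.comp (ContinuousLinearMap.adjoint B) : F →L[ℝ] F)) A := by
    obtain ⟨u, hu⟩ := isUnit_of_surj hA
    have h3 := NormedRing.inverse_continuousAt u
    rw [hu] at h3
    exact ContinuousAt.comp (g := fun T : F →L[ℝ] F => Ring.inverse T) h3 cont_AA.continuousAt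
  exact h1.clm_comp h2

end RightInv

section Dset

variable {E F : Type*} [NormedAddCommGroup E] [NormedSpace ℝ E] [FiniteDimensional ℝ E]
  [NormedAddCommGroup F] [NormedSpace ℝ F] [FiniteDimensional ℝ F]

/-- limits of derivatives -/
def Dset (f : E → F) (x₀ : E) : Set (E →L[ℝ] F) :=
  {B | ∀ ε : ℝ, 0 < ε → ∀ δ : ℝ, 0 < δ →
    ∃ x : E, dist x x₀ < δ ∧ DifferentiableAt ℝ f x ∧ ‖fderiv ℝ f x - B‖ < ε}

theorem Dset_closed (f : E → F) (x₀ : E) : IsClosed (Dset f x₀) := by
  refine isClosed_of_closure_subset fun B hB => ?_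
  intro ε hε δ hδ
  rw [Metric.mem_closure_iff] at hB
  obtain ⟨B', hB', hd⟩ := hB (ε / 2) (by positivity)
  obtain ⟨x, hx1, hx2, hx3⟩ := hB' (ε / 2) (by positivity) δ hδ
  refine ⟨x, hx1, hx2, ?_⟩
  rw [dist_eq_norm] at hd
  have e1 : fderiv ℝ f x - B = (fderiv ℝ f x - B') - (B - B') := by abel
  rw [e1]
  have := norm_sub_le (fderiv ℝ f x - B') (B - B')
  linarith

theorem fderiv_bound {f : E → F} {x₀ : E} {K : ℝ≥0} {ρ : ℝ}
    (hf : LipschitzOnWith K f (ball x₀ ρ)) {x : E} (hx : x ∈ ball x₀ ρ) :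
    ‖fderiv ℝ f x‖ ≤ K :=
  norm_fderiv_le_of_lipschitzOn ℝ (isOpen_ball.mem_nhds hx) hf

theorem Dset_bounded {f : E → F} {x₀ : E} {K : ℝ≥0} {ρ : ℝ} (hρ : 0 < ρ)
    (hf : LipschitzOnWith K f (ball x₀ ρ)) :
    Dset f x₀ ⊆ closedBall 0 (K + 1) := by
  intro B hB
  obtain ⟨x, hx1, hx2, hx3⟩ := hB 1 one_pos ρ hρ
  have h1 := fderiv_bound hf (mem_ball.mpr hx1)
  rw [mem_closedBall, dist_zero_right]
  have e1 : B = fderiv ℝ f x - (fderiv ℝ f x - B) := by abel
  rw [e1]
  have := norm_sub_le (fderiv ℝ f x) (fderiv ℝ f x - B)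
  linarith

theorem Dset_compact {f : E → F} {x₀ : E} {K : ℝ≥0} {ρ : ℝ} (hρ : 0 < ρ)
    (hf : LipschitzOnWith K f (ball x₀ ρ)) : IsCompact (Dset f x₀) := by
  have : ProperSpace (E →L[ℝ] F) := FiniteDimensional.proper ℝ _
  exact (isCompact_closedBall (0 : E →L[ℝ] F) (K + 1)).of_isClosed_subset (Dset_closed f x₀)
    (Dset_bounded hρ hf)

theorem Dset_semi {f : E → F} {x₀ : E} {K : ℝ≥0} {ρ : ℝ} (hρ : 0 < ρ)
    (hf : LipschitzOnWith K f (ball x₀ ρ)) {δ : ℝ} (hδ : 0 < δ) :
    ∃ σ : ℝ, 0 < σ ∧ ∀ x ∈ ball x₀ σ, DifferentiableAt ℝ f x →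
      fderiv ℝ f x ∈ cthickening δ (Dset f x₀) := by
  have : ProperSpace (E →L[ℝ] F) := FiniteDimensional.proper ℝ _
  by_contra hcon
  push Not at hcon
  have hpos : ∀ k : ℕ, (0 : ℝ) < min ρ (1 / ((k : ℝ) + 1)) := fun k =>
    lt_min hρ (by positivity)
  choose x hx1 hx2 hx3 using fun k : ℕ => hcon (min ρ (1 / ((k : ℝ) + 1))) (hpos k)
  have hin : ∀ k, x k ∈ ball x₀ ρ := fun k => ball_subset_ball (min_le_left _ _) (hx1 k)
  have hmem : ∀ k, fderiv ℝ f (x k) ∈ closedBall (0 : E →L[ℝ] F) K := by
    intro k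
    rw [mem_closedBall, dist_zero_right]
    exact fderiv_bound hf (hin k)
  obtain ⟨B, _, φ, hφ, hlim⟩ :=
    (isCompact_closedBall (0 : E →L[ℝ] F) (K : ℝ)).tendsto_subseq hmem
  have hB : B ∈ Dset f x₀ := by
    intro ε hε η hη
    have h1 : ∀ᶠ k in atTop, dist (fderiv ℝ f (x (φ k))) B < ε :=
      (Metric.tendsto_nhds.mp hlim) ε hε
    have h2 : ∀ᶠ k : ℕ in atTop, (1 : ℝ) / ((φ k : ℝ) + 1) < η := by
      have h3 : Tendsto (fun k : ℕ => (1 : ℝ) / ((k : ℝ) + 1)) atTop (𝓝 0) :=
        tendsto_one_div_add_atTop_nhds_zero_nat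
      exact (h3.comp hφ.tendsto_atTop).eventually (gt_mem_nhds hη)
    obtain ⟨k, hk1, hk2⟩ := (h1.and h2).exists
    refine ⟨x (φ k), ?_, hx2 (φ k), ?_⟩
    · have h4 := hx1 (φ k)
      rw [mem_ball] at h4
      exact (h4.trans_le (min_le_right _ _)).trans hk2
    · rwa [dist_eq_norm] at hk1
  have h1 : ∀ᶠ k in atTop, dist (fderiv ℝ f (x (φ k))) B < δ :=
    (Metric.tendsto_nhds.mp hlim) δ hδ
  obtain ⟨k, hk⟩ := h1.exists
  refine hx3 (φ k) ?_
  exact mem_cthickening_of_dist_le _ B δ _ hB hk.le

end Dset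

end Pool.Agent.TH224.Cal
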