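import Mathlib

set_option autoImplicit false

namespace Pool.Agent.TH224.Cal

open Metric Set Filter Topology MeasureTheory
open scoped Convolution NNReal ENNReal

/-- Lemma M for a globally Lipschitz map. -/
theorem moll {n m : ℕ} {K : ℝ≥0} {f : EuclideanSpace ℝ (Fin n) → EuclideanSpace ℝ (Fin m)}
    (hf : LipschitzWith K f)
    {S : Set (EuclideanSpace ℝ (Fin n) →L[ℝ] EuclideanSpace ℝ (Fin m))}
    (hSc : Convex ℝ S) (hScl : IsClosed S) {x₀ : EuclideanSpace ℝ (Fin n)} {ρ : ℝ} (hρ : 0 < ρ)
    (hS : ∀ x ∈ ball x₀ (2 * ρ), DifferentiableAt ℝ f x → fderiv ℝ f x ∈ S)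
    {ε : ℝ} (hε : 0 < ε) :
    ∃ g : EuclideanSpace ℝ (Fin n) → EuclideanSpace ℝ (Fin m), ContDiff ℝ 1 g ∧
      (∀ x, ‖g x - f x‖ ≤ ε) ∧ ∀ x ∈ closedBall x₀ ρ, fderiv ℝ g x ∈ S := by
  set μ : Measure (EuclideanSpace ℝ (Fin n)) := volume with hμ
  obtain ⟨η, hη⟩ : ∃ η : ℝ, η = min ρ (ε / (K + 1)) := ⟨_, rfl⟩
  have hη0 : 0 < η := by rw [hη]; exact lt_min hρ (by positivity)
  have hηρ : η ≤ ρ := by rw [hη]; exact min_le_left _ _
  have hηε : η * K ≤ ε := by
    have h1 : η ≤ ε / (K + 1) := by rw [hη]; exact min_le_right _ _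
    rw [le_div_iff₀ (by positivity)] at h1
    nlinarith
  let φ : ContDiffBump (0 : EuclideanSpace ℝ (Fin n)) := ⟨η / 2, η, by positivity, by linarith⟩
  have hφout : φ.rOut = η := rfl
  set w : EuclideanSpace ℝ (Fin n) → ℝ := φ.normed μ with hw
  have hw0 : ∀ t, 0 ≤ w t := φ.nonneg_normed
  have hwc : Continuous w := φ.continuous_normed
  have hwi : Integrable w μ := φ.integrable_normed
  have hw1 : ∫ t, w t ∂μ = 1 := φ.integral_normed
  have hws : HasCompactSupport w := φ.hasCompactSupport_normed
  have hwsupp : ∀ t, w t ≠ 0 → t ∈ ball (0 : EuclideanSpace ℝ (Fin n)) η := by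
    intro t ht
    have h1 : t ∈ Function.support w := ht
    rw [hw, φ.support_normed_eq (μ := μ), hφout] at h1
    exact h1
  have hfc : Continuous f := hf.continuous
  refine ⟨(w ⋆[ContinuousLinearMap.lsmul ℝ ℝ, μ] f), ?_, ?_, ?_⟩
  · exact hws.contDiff_convolution_left (n := 1) _ φ.contDiff_normed hfc.locallyIntegrable
  · intro x
    have h1 := ContDiffBump.dist_normed_convolution_le (φ := φ) (μ := μ) (g := f) (x₀ := x)
      (ε := ε) hfc.aestronglyMeasurable (fun z hz => by
        rw [mem_ball, hφout] at hz
        refine (hf.dist_le_mul z x).trans ?_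
        have : (K : ℝ) * dist z x ≤ K * η := mul_le_mul_of_nonneg_left hz.le K.coe_nonneg
        linarith)
    rw [dist_eq_norm] at h1
    exact h1
  · intro x hx
    -- the probability measure with density `w`
    set ν : Measure (EuclideanSpace ℝ (Fin n)) := μ.withDensity (fun t => ENNReal.ofReal (w t))
      with hν
    have hwm : Measurable (fun t => ENNReal.ofReal (w t)) :=
      hwc.measurable.ennreal_ofReal
    have hνp : IsProbabilityMeasure ν := by
      refine ⟨?_⟩
      rw [hν, withDensity_apply _ MeasurableSet.univ, Measure.restrict_univ,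
        ← ofReal_integral_eq_lintegral_ofReal hwi (Eventually.of_forall hw0), hw1,
        ENNReal.ofReal_one]
    have hfd : Measurable (fun t => fderiv ℝ f (x - t)) :=
      (measurable_fderiv ℝ f).comp (measurable_const.sub measurable_id)
    have : FiniteDimensional ℝ (EuclideanSpace ℝ (Fin n) →L[ℝ] EuclideanSpace ℝ (Fin m)) :=
      inferInstance
    have : ProperSpace (EuclideanSpace ℝ (Fin n) →L[ℝ] EuclideanSpace ℝ (Fin m)) :=
      FiniteDimensional.proper ℝ _
    have hfds : StronglyMeasurable (fun t => fderiv ℝ f (x - t)) := hfd.stronglyMeasurable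
    have hbd : ∀ t, ‖fderiv ℝ f (x - t)‖ ≤ K := fun t => norm_fderiv_le_of_lipschitz ℝ hf
    -- almost every point is a differentiability point
    have hae : ∀ᵐ t ∂μ, DifferentiableAt ℝ f (x - t) := by
      have h1 : ∀ᵐ z ∂μ, DifferentiableAt ℝ f z := hf.ae_differentiableAt
      have h2 := (Measure.measurePreserving_sub_left μ x).quasiMeasurePreserving
      exact h2.ae h1
    -- the derivative of the mollification
    have hder : HasFDerivAt (fun z => ∫ t, w t • f (z - t) ∂μ)
        (∫ t, w t • fderiv ℝ f (x - t) ∂μ) x := by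
      refine (hasFDerivAt_integral_of_dominated_loc_of_lip (s := univ)
        (F := fun z t => w t • f (z - t)) (F' := fun t => w t • fderiv ℝ f (x - t))
        (bound := fun t => w t * K) univ_mem ?_ ?_ ?_ ?_ ?_ ?_).2
      · refine Eventually.of_forall fun z => ?_
        exact (hwc.smul (hfc.comp (continuous_const.sub continuous_id))).aestronglyMeasurable
      · have h1 : Continuous (fun t => w t • f (x - t)) :=
          hwc.smul (hfc.comp (continuous_const.sub continuous_id))
        exact h1.integrable_of_hasCompactSupport (hws.smul_right)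
      · exact hwc.aestronglyMeasurable.smul hfds.aestronglyMeasurable
      · refine Eventually.of_forall fun t => ?_
        have h1 : LipschitzWith K (fun z => f (z - t)) := by
          refine LipschitzWith.of_dist_le_mul fun a b => ?_
          have h3 := hf.dist_le_mul (a - t) (b - t)
          rwa [dist_sub_right] at h3
        have h2 : LipschitzWith (Real.nnabs (w t * K)) (fun z => w t • f (z - t)) := by
          refine LipschitzWith.of_dist_le_mul fun a b => ?_
          rw [dist_eq_norm, ← smul_sub, norm_smul, Real.norm_eq_abs, abs_of_nonneg (hw0 t)]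
          have h3 := h1.dist_le_mul a b
          rw [dist_eq_norm] at h3
          rw [Real.coe_nnabs, abs_of_nonneg (mul_nonneg (hw0 t) K.coe_nonneg), mul_assoc]
          exact mul_le_mul_of_nonneg_left h3 (hw0 t)
        exact h2.lipschitzOnWith
      · exact hwi.mul_const _
      · filter_upwards [hae] with t ht
        have h1 : HasFDerivAt f (fderiv ℝ f (x - t)) (x - t) := ht.hasFDerivAt
        have h2 : HasFDerivAt (fun z => f (z - t)) (fderiv ℝ f (x - t)) x := by
          have h3 : HasFDerivAt (fun z : EuclideanSpace ℝ (Fin n) => z - t)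
              (ContinuousLinearMap.id ℝ (EuclideanSpace ℝ (Fin n))) x :=
            (hasFDerivAt_id x).sub_const t
          have h4 := HasFDerivAt.comp x (g := f) h1 h3
          rw [ContinuousLinearMap.comp_id] at h4
          exact h4
        exact h2.const_smul (w t)
    have hconv : (w ⋆[ContinuousLinearMap.lsmul ℝ ℝ, μ] f) = fun z => ∫ t, w t • f (z - t) ∂μ := by
      funext z
      rfl
    rw [hconv, hder.fderiv]
    have h1 : ∫ t, w t • fderiv ℝ f (x - t) ∂μ = ∫ t, fderiv ℝ f (x - t) ∂ν := by
      rw [hν, integral_withDensity_eq_integral_toReal_smul hwm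
        (Eventually.of_forall fun t => ENNReal.ofReal_lt_top)]
      refine integral_congr_ae (Eventually.of_forall fun t => ?_)
      simp only
      rw [ENNReal.toReal_ofReal (hw0 t)]
    rw [h1]
    refine hSc.integral_mem hScl ?_ ?_
    · rw [hν, ae_withDensity_iff hwm]
      filter_upwards [hae] with t ht hne
      have h2 : w t ≠ 0 := by
        intro h0
        apply hne
        rw [h0, ENNReal.ofReal_zero]
      refine hS _ ?_ ht
      have h3 := hwsupp t h2
      rw [mem_ball, dist_zero_right] at h3
      rw [mem_closedBall, dist_eq_norm] at hx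
      rw [mem_ball, dist_eq_norm]
      have h4 : x - t - x₀ = (x - x₀) - t := by abel
      rw [h4]
      have h5 := norm_sub_le (x - x₀) t
      linarith
    · exact Integrable.of_bound hfds.aestronglyMeasurable K (Eventually.of_forall hbd)

end Pool.Agent.TH224.Cal
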