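import Mathlib

set_option autoImplicit false

namespace Pool.Agent.TH224.Cal

open Metric Set Filter Topology

variable {E F : Type*} [NormedAddCommGroup E] [NormedSpace ℝ E]
  [NormedAddCommGroup F] [NormedSpace ℝ F]

/-- uniform first order estimate on a compact ball -/
theorem unif_diff [ProperSpace E] {g : E → F} {g' : E → E →L[ℝ] F} {x₀ : E} {ρ ω : ℝ}
    (hω : 0 < ω)
    (hg : ∀ x ∈ closedBall x₀ ρ, HasFDerivAt g (g' x) x)
    (hg' : ContinuousOn g' (closedBall x₀ ρ)) :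
    ∃ κ : ℝ, 0 < κ ∧ ∀ x ∈ closedBall x₀ ρ, ∀ z ∈ closedBall x₀ ρ, ‖z - x‖ ≤ κ →
      ‖g z - g x - g' x (z - x)‖ ≤ ω * ‖z - x‖ := by
  have hc : IsCompact (closedBall x₀ ρ) := isCompact_closedBall x₀ ρ
  have huc : UniformContinuousOn g' (closedBall x₀ ρ) := hc.uniformContinuousOn_of_continuous hg'
  rw [Metric.uniformContinuousOn_iff] at huc
  obtain ⟨κ, hκ, hK⟩ := huc ω hω
  refine ⟨κ / 2, by positivity, ?_⟩
  intro x hx z hz hzx
  have hs : Convex ℝ (closedBall x₀ ρ ∩ closedBall x (κ / 2)) :=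
    (convex_closedBall x₀ ρ).inter (convex_closedBall x (κ / 2))
  have hxs : x ∈ closedBall x₀ ρ ∩ closedBall x (κ / 2) :=
    ⟨hx, mem_closedBall_self (by positivity)⟩
  have hzs : z ∈ closedBall x₀ ρ ∩ closedBall x (κ / 2) :=
    ⟨hz, by rw [mem_closedBall, dist_eq_norm]; exact hzx⟩
  refine hs.norm_image_sub_le_of_norm_hasFDerivWithin_le' (f' := g') ?_ ?_ hxs hzs
  · intro w hw
    exact (hg w hw.1).hasFDerivWithinAt
  · intro w hw
    have h1 : dist w x < κ := by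
      have := hw.2
      rw [mem_closedBall] at this
      linarith
    have := hK w hw.1 x hx h1
    rw [dist_eq_norm] at this
    exact this.le

/-- the damped Newton step -/
noncomputable def stp (g : E → F) (r : E → F →L[ℝ] E) (h : ℝ) (p : E × F × ℝ) : E :=
  p.1 + (p.2.2 * h) • r p.1 (p.2.1 - g p.1)

/-- the step as a self-map of the triples -/
noncomputable def stG (g : E → F) (r : E → F →L[ℝ] E) (h : ℝ) (p : E × F × ℝ) : E × F × ℝ :=
  (stp g r h p, p.2.1, p.2.2)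

/-- domain of the step -/
def dom (g : E → F) (x₀ : E) (C ρ : ℝ) : Set (E × F × ℝ) :=
  {p | ‖p.1 - x₀‖ + 2 * C * ‖p.2.1 - g p.1‖ ≤ ρ ∧ 0 ≤ p.2.2 ∧ p.2.2 ≤ 1}

theorem step_est {g : E → F} {g' : E → E →L[ℝ] F} {r : E → F →L[ℝ] E} {x₀ : E} {ρ C κ h : ℝ}
    (hC : 0 < C) (hh0 : 0 < h) (hh1 : h ≤ 1) (hhκ : h * ρ ≤ 2 * κ)
    (hK : ∀ x ∈ closedBall x₀ ρ, ∀ z ∈ closedBall x₀ ρ, ‖z - x‖ ≤ κ →
      ‖g z - g x - g' x (z - x)‖ ≤ (1 / (2 * C)) * ‖z - x‖)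
    (hr : ∀ x ∈ closedBall x₀ ρ, ‖r x‖ ≤ C)
    (hgr : ∀ x ∈ closedBall x₀ ρ, ∀ v, g' x (r x v) = v)
    {p : E × F × ℝ} (hp : p ∈ dom g x₀ C ρ) :
    ‖p.2.1 - g (stp g r h p)‖ ≤ (1 - p.2.2 * h / 2) * ‖p.2.1 - g p.1‖ ∧
    ‖stp g r h p - p.1‖ + 2 * C * ‖p.2.1 - g (stp g r h p)‖ ≤ 2 * C * ‖p.2.1 - g p.1‖ := by
  obtain ⟨x, y, l⟩ := p
  obtain ⟨h1, h2, h3⟩ := hp
  simp only at h1 h2 h3 ⊢
  set a : ℝ := ‖y - g x‖ with ha
  have ha0 : 0 ≤ a := norm_nonneg _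
  have hx : x ∈ closedBall x₀ ρ := by
    rw [mem_closedBall, dist_eq_norm]
    have : 0 ≤ 2 * C * a := by positivity
    linarith
  set z : E := stp g r h (x, y, l) with hz
  have hzx : z - x = (l * h) • r x (y - g x) := by
    rw [hz]
    simp [stp]
  have hlh : 0 ≤ l * h := by positivity
  have hnz : ‖z - x‖ ≤ l * h * (C * a) := by
    rw [hzx, norm_smul, Real.norm_eq_abs, abs_of_nonneg hlh]
    have := (r x).le_opNorm (y - g x)
    have h5 : ‖r x (y - g x)‖ ≤ C * a := this.trans (by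
      have := hr x hx
      exact mul_le_mul_of_nonneg_right this ha0)
    exact mul_le_mul_of_nonneg_left h5 hlh
  have hlh1 : l * h ≤ 1 := by
    calc l * h ≤ 1 * 1 := mul_le_mul h3 hh1 hh0.le (by norm_num)
      _ = 1 := by norm_num
  have hlhh : l * h ≤ h := by
    calc l * h ≤ 1 * h := mul_le_mul_of_nonneg_right h3 hh0.le
      _ = h := by ring
  have hCa : C * a ≤ ρ / 2 := by
    have := norm_nonneg (x - x₀)
    nlinarith
  have hCa0 : 0 ≤ C * a := by positivity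
  have hzκ : ‖z - x‖ ≤ κ := by
    have : l * h * (C * a) ≤ h * (ρ / 2) := mul_le_mul hlhh hCa hCa0 hh0.le
    linarith
  have hz0 : z ∈ closedBall x₀ ρ := by
    rw [mem_closedBall, dist_eq_norm]
    have e1 : z - x₀ = (z - x) + (x - x₀) := by abel
    have e2 : ‖z - x₀‖ ≤ ‖z - x‖ + ‖x - x₀‖ := by rw [e1]; exact norm_add_le _ _
    have e3 : l * h * (C * a) ≤ 1 * (C * a) := mul_le_mul_of_nonneg_right hlh1 hCa0
    nlinarith
  have key := hK x hx z hz0 hzκ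
  have hgx : g' x (z - x) = (l * h) • (y - g x) := by
    rw [hzx, map_smul, hgr x hx]
  have hid : y - g z = (1 - l * h) • (y - g x) - (g z - g x - g' x (z - x)) := by
    rw [hgx, sub_smul, one_smul]
    abel
  have hmain : ‖y - g z‖ ≤ (1 - l * h / 2) * a := by
    calc ‖y - g z‖ ≤ ‖(1 - l * h) • (y - g x)‖ + ‖g z - g x - g' x (z - x)‖ := by
          rw [hid]; exact norm_sub_le _ _
      _ ≤ (1 - l * h) * a + (1 / (2 * C)) * (l * h * (C * a)) := by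
          refine add_le_add ?_ ?_
          · rw [norm_smul, Real.norm_eq_abs, abs_of_nonneg (by linarith)]
          · exact key.trans (mul_le_mul_of_nonneg_left hnz (by positivity))
      _ = (1 - l * h / 2) * a := by
          field_simp
          ring
  refine ⟨hmain, ?_⟩
  have : 2 * C * ‖y - g z‖ ≤ 2 * C * ((1 - l * h / 2) * a) :=
    mul_le_mul_of_nonneg_left hmain (by positivity)
  nlinarith

theorem stG_maps {g : E → F} {g' : E → E →L[ℝ] F} {r : E → F →L[ℝ] E} {x₀ : E} {ρ C κ h : ℝ}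
    (hC : 0 < C) (hh0 : 0 < h) (hh1 : h ≤ 1) (hhκ : h * ρ ≤ 2 * κ)
    (hK : ∀ x ∈ closedBall x₀ ρ, ∀ z ∈ closedBall x₀ ρ, ‖z - x‖ ≤ κ →
      ‖g z - g x - g' x (z - x)‖ ≤ (1 / (2 * C)) * ‖z - x‖)
    (hr : ∀ x ∈ closedBall x₀ ρ, ‖r x‖ ≤ C)
    (hgr : ∀ x ∈ closedBall x₀ ρ, ∀ v, g' x (r x v) = v) :
    MapsTo (stG g r h) (dom g x₀ C ρ) (dom g x₀ C ρ) := by
  intro p hp
  have h1 := (step_est hC hh0 hh1 hhκ hK hr hgr hp).2
  refine ⟨?_, hp.2.1, hp.2.2⟩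
  have h2 := hp.1
  show ‖stp g r h p - x₀‖ + 2 * C * ‖p.2.1 - g (stp g r h p)‖ ≤ ρ
  have e1 : stp g r h p - x₀ = (stp g r h p - p.1) + (p.1 - x₀) := by abel
  have e2 : ‖stp g r h p - x₀‖ ≤ ‖stp g r h p - p.1‖ + ‖p.1 - x₀‖ := by
    rw [e1]; exact norm_add_le _ _
  linarith

theorem dom_ball {g : E → F} {x₀ : E} {ρ C : ℝ} (hC : 0 < C) {p : E × F × ℝ}
    (hp : p ∈ dom g x₀ C ρ) : p.1 ∈ closedBall x₀ ρ := by
  rw [mem_closedBall, dist_eq_norm]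
  have h1 := hp.1
  have : 0 ≤ 2 * C * ‖p.2.1 - g p.1‖ := by positivity
  linarith

theorem stG_cont {g : E → F} {r : E → F →L[ℝ] E} {x₀ : E} {ρ C h : ℝ} (hC : 0 < C)
    (hg : ContinuousOn g (closedBall x₀ ρ)) (hr : ContinuousOn r (closedBall x₀ ρ)) :
    ContinuousOn (stG g r h) (dom g x₀ C ρ) := by
  have h1 : ContinuousOn (fun p : E × F × ℝ => p.1) (dom g x₀ C ρ) := continuous_fst.continuousOn
  have h2 : ContinuousOn (fun p : E × F × ℝ => p.2.1) (dom g x₀ C ρ) :=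
    (continuous_fst.comp continuous_snd).continuousOn
  have h3 : ContinuousOn (fun p : E × F × ℝ => p.2.2) (dom g x₀ C ρ) :=
    (continuous_snd.comp continuous_snd).continuousOn
  have hm : MapsTo (fun p : E × F × ℝ => p.1) (dom g x₀ C ρ) (closedBall x₀ ρ) :=
    fun p hp => dom_ball hC hp
  have h4 : ContinuousOn (fun p : E × F × ℝ => g p.1) (dom g x₀ C ρ) := hg.comp h1 hm
  have h5 : ContinuousOn (fun p : E × F × ℝ => r p.1) (dom g x₀ C ρ) := hr.comp h1 hm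
  have h6 : ContinuousOn (fun p : E × F × ℝ => stp g r h p) (dom g x₀ C ρ) := by
    unfold stp
    exact h1.add ((h3.mul continuousOn_const).smul (h5.clm_apply (h2.sub h4)))
  exact h6.prodMk (h2.prodMk h3)

theorem stG_iter_snd (g : E → F) (r : E → F →L[ℝ] E) (h : ℝ) (N : ℕ) (p : E × F × ℝ) :
    ((stG g r h)^[N] p).2 = p.2 := by
  induction N with
  | zero => rfl
  | succ N ih =>
    rw [Function.iterate_succ_apply']
    rw [← ih]
    rfl

/-- Lemma T3: approximate solution by a finite number of Newton steps, continuous in the data. -/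
theorem newton [ProperSpace E] {g : E → F} {g' : E → E →L[ℝ] F} {r : E → F →L[ℝ] E}
    {x₀ : E} {ρ C : ℝ} (hρ : 0 < ρ) (hC : 0 < C)
    (hg : ∀ x ∈ closedBall x₀ ρ, HasFDerivAt g (g' x) x)
    (hg' : ContinuousOn g' (closedBall x₀ ρ))
    (hrc : ContinuousOn r (closedBall x₀ ρ))
    (hr : ∀ x ∈ closedBall x₀ ρ, ‖r x‖ ≤ C)
    (hgr : ∀ x ∈ closedBall x₀ ρ, ∀ v, g' x (r x v) = v) {ε : ℝ} (hε : 0 < ε) :
    ∃ Ψ : E × F × ℝ → E, ContinuousOn Ψ (dom g x₀ C ρ) ∧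
      (∀ p ∈ dom g x₀ C ρ, p.2.2 = 0 → Ψ p = p.1) ∧
      (∀ p ∈ dom g x₀ C ρ, ‖Ψ p - p.1‖ + 2 * C * ‖p.2.1 - g (Ψ p)‖ ≤ 2 * C * ‖p.2.1 - g p.1‖) ∧
      (∀ p ∈ dom g x₀ C ρ, p.2.2 = 1 → ‖p.2.1 - g (Ψ p)‖ ≤ ε) := by
  obtain ⟨κ, hκ, hK⟩ := unif_diff (ω := 1 / (2 * C)) (by positivity) hg hg'
  set h : ℝ := min 1 (2 * κ / ρ) with hh
  have hh0 : 0 < h := lt_min one_pos (by positivity)
  have hh1 : h ≤ 1 := min_le_left _ _
  have hhκ : h * ρ ≤ 2 * κ := by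
    have : h ≤ 2 * κ / ρ := min_le_right _ _
    rwa [le_div_iff₀ hρ] at this
  have hmaps := stG_maps hC hh0 hh1 hhκ hK hr hgr
  have hgc : ContinuousOn g (closedBall x₀ ρ) := fun x hx =>
    (hg x hx).continuousAt.continuousWithinAt
  have hcont : ContinuousOn (stG g r h) (dom g x₀ C ρ) := stG_cont hC hgc hrc
  have hq0 : 0 ≤ 1 - h / 2 := by linarith
  have hq1 : 1 - h / 2 < 1 := by linarith
  obtain ⟨N, hN⟩ : ∃ N : ℕ, (1 - h / 2) ^ N < ε / (ρ / (2 * C)) :=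
    exists_pow_lt_of_lt_one (by positivity) hq1
  have hmapsN : ∀ k : ℕ, MapsTo ((stG g r h)^[k]) (dom g x₀ C ρ) (dom g x₀ C ρ) :=
    fun k => hmaps.iterate k
  refine ⟨fun p => ((stG g r h)^[N] p).1, ?_, ?_, ?_, ?_⟩
  · exact continuous_fst.comp_continuousOn (hcont.iterate hmaps N)
  · intro p hp hl
    have : ∀ k : ℕ, (stG g r h)^[k] p = p := by
      intro k
      induction k with
      | zero => rfl
      | succ k ih =>
        rw [Function.iterate_succ_apply', ih]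
        obtain ⟨x, y, l⟩ := p
        simp only at hl
        subst hl
        simp [stG, stp]
    show ((stG g r h)^[N] p).1 = p.1
    rw [this N]
  · intro p hp
    have : ∀ k : ℕ, ‖((stG g r h)^[k] p).1 - p.1‖ + 2 * C * ‖p.2.1 - g ((stG g r h)^[k] p).1‖
        ≤ 2 * C * ‖p.2.1 - g p.1‖ := by
      intro k
      induction k with
      | zero => simp
      | succ k ih =>
        rw [Function.iterate_succ_apply']
        set q := (stG g r h)^[k] p with hq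
        have hqd : q ∈ dom g x₀ C ρ := hmapsN k hp
        have hq2 : q.2 = p.2 := stG_iter_snd g r h k p
        have h1 := (step_est hC hh0 hh1 hhκ hK hr hgr hqd).2
        rw [hq2] at h1
        show ‖stp g r h q - p.1‖ + 2 * C * ‖p.2.1 - g (stp g r h q)‖ ≤ _
        have e1 : stp g r h q - p.1 = (stp g r h q - q.1) + (q.1 - p.1) := by abel
        have e2 : ‖stp g r h q - p.1‖ ≤ ‖stp g r h q - q.1‖ + ‖q.1 - p.1‖ := by
          rw [e1]; exact norm_add_le _ _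
        linarith
    exact this N
  · intro p hp hl
    have : ∀ k : ℕ, ‖p.2.1 - g ((stG g r h)^[k] p).1‖ ≤ (1 - h / 2) ^ k * ‖p.2.1 - g p.1‖ := by
      intro k
      induction k with
      | zero => simp
      | succ k ih =>
        rw [Function.iterate_succ_apply']
        set q := (stG g r h)^[k] p with hq
        have hqd : q ∈ dom g x₀ C ρ := hmapsN k hp
        have hq2 : q.2 = p.2 := stG_iter_snd g r h k p
        have h1 := (step_est hC hh0 hh1 hhκ hK hr hgr hqd).1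
        rw [hq2, hl] at h1
        show ‖p.2.1 - g (stp g r h q)‖ ≤ _
        rw [pow_succ]
        calc ‖p.2.1 - g (stp g r h q)‖ ≤ (1 - 1 * h / 2) * ‖p.2.1 - g q.1‖ := h1
          _ = (1 - h / 2) * ‖p.2.1 - g q.1‖ := by rw [one_mul]
          _ ≤ (1 - h / 2) * ((1 - h / 2) ^ k * ‖p.2.1 - g p.1‖) :=
              mul_le_mul_of_nonneg_left ih hq0
          _ = (1 - h / 2) ^ k * (1 - h / 2) * ‖p.2.1 - g p.1‖ := by ring
    have h2 : ‖p.2.1 - g p.1‖ ≤ ρ / (2 * C) := by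
      rw [le_div_iff₀ (by positivity)]
      have := hp.1
      have h3 := norm_nonneg (p.1 - x₀)
      linarith
    calc ‖p.2.1 - g ((stG g r h)^[N] p).1‖ ≤ (1 - h / 2) ^ N * ‖p.2.1 - g p.1‖ := this N
      _ ≤ (ε / (ρ / (2 * C))) * (ρ / (2 * C)) :=
          mul_le_mul hN.le h2 (norm_nonneg _) (by positivity)
      _ = ε := by field_simp

/-- the same for a map uniformly close to `g` -/
theorem corr [ProperSpace E] {f g : E → F} {g' : E → E →L[ℝ] F} {r : E → F →L[ℝ] E}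
    {x₀ : E} {ρ C : ℝ} (hρ : 0 < ρ) (hC : 0 < C)
    (hg : ∀ x ∈ closedBall x₀ ρ, HasFDerivAt g (g' x) x)
    (hg' : ContinuousOn g' (closedBall x₀ ρ))
    (hrc : ContinuousOn r (closedBall x₀ ρ))
    (hr : ∀ x ∈ closedBall x₀ ρ, ‖r x‖ ≤ C)
    (hgr : ∀ x ∈ closedBall x₀ ρ, ∀ v, g' x (r x v) = v) {ε : ℝ} (hε : 0 < ε)
    (hfg : ∀ x ∈ closedBall x₀ ρ, ‖g x - f x‖ ≤ ε) :
    ∃ Φ : E × F × ℝ → E, ContinuousOn Φ (dom f x₀ C (ρ - 2 * C * ε)) ∧
      (∀ p ∈ dom f x₀ C (ρ - 2 * C * ε), p.2.2 = 0 → Φ p = p.1) ∧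
      (∀ p ∈ dom f x₀ C (ρ - 2 * C * ε), ‖Φ p - p.1‖ + 2 * C * ‖p.2.1 - f (Φ p)‖ ≤
        2 * C * ‖p.2.1 - f p.1‖ + 4 * C * ε) ∧
      (∀ p ∈ dom f x₀ C (ρ - 2 * C * ε), p.2.2 = 1 → ‖p.2.1 - f (Φ p)‖ ≤ 2 * ε) := by
  obtain ⟨Ψ, h1, h2, h3, h4⟩ := newton hρ hC hg hg' hrc hr hgr hε
  have hball : ∀ p ∈ dom f x₀ C (ρ - 2 * C * ε), p.1 ∈ closedBall x₀ ρ := by
    intro p hp
    have := dom_ball hC hp
    refine closedBall_subset_closedBall ?_ this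
    have : 0 ≤ 2 * C * ε := by positivity
    linarith
  have hfgp : ∀ p ∈ dom f x₀ C (ρ - 2 * C * ε), ‖p.2.1 - g p.1‖ ≤ ‖p.2.1 - f p.1‖ + ε := by
    intro p hp
    have e1 : p.2.1 - g p.1 = (p.2.1 - f p.1) - (g p.1 - f p.1) := by abel
    calc ‖p.2.1 - g p.1‖ ≤ ‖p.2.1 - f p.1‖ + ‖g p.1 - f p.1‖ := by rw [e1]; exact norm_sub_le _ _
      _ ≤ _ := by linarith [hfg p.1 (hball p hp)]
  have hsub : dom f x₀ C (ρ - 2 * C * ε) ⊆ dom g x₀ C ρ := by
    intro p hp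
    refine ⟨?_, hp.2.1, hp.2.2⟩
    have := hp.1
    have h5 := hfgp p hp
    have h6 : 2 * C * ‖p.2.1 - g p.1‖ ≤ 2 * C * (‖p.2.1 - f p.1‖ + ε) :=
      mul_le_mul_of_nonneg_left h5 (by positivity)
    linarith
  have hΨball : ∀ p ∈ dom f x₀ C (ρ - 2 * C * ε), Ψ p ∈ closedBall x₀ ρ := by
    intro p hp
    have h5 := h3 p (hsub hp)
    have h6 := (hsub hp).1
    have h7 : 0 ≤ 2 * C * ‖p.2.1 - g (Ψ p)‖ := by positivity
    rw [mem_closedBall, dist_eq_norm]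
    have e1 : Ψ p - x₀ = (Ψ p - p.1) + (p.1 - x₀) := by abel
    have e2 : ‖Ψ p - x₀‖ ≤ ‖Ψ p - p.1‖ + ‖p.1 - x₀‖ := by rw [e1]; exact norm_add_le _ _
    linarith
  have hfgΨ : ∀ p ∈ dom f x₀ C (ρ - 2 * C * ε), ‖p.2.1 - f (Ψ p)‖ ≤ ‖p.2.1 - g (Ψ p)‖ + ε := by
    intro p hp
    have e1 : p.2.1 - f (Ψ p) = (p.2.1 - g (Ψ p)) + (g (Ψ p) - f (Ψ p)) := by abel
    calc ‖p.2.1 - f (Ψ p)‖ ≤ ‖p.2.1 - g (Ψ p)‖ + ‖g (Ψ p) - f (Ψ p)‖ := by
          rw [e1]; exact norm_add_le _ _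
      _ ≤ _ := by linarith [hfg (Ψ p) (hΨball p hp)]
  refine ⟨Ψ, h1.mono hsub, fun p hp => h2 p (hsub hp), ?_, ?_⟩
  · intro p hp
    have h5 := h3 p (hsub hp)
    have h6 := hfgp p hp
    have h7 := hfgΨ p hp
    nlinarith
  · intro p hp hl
    have h5 := h4 p (hsub hp) hl
    have h7 := hfgΨ p hp
    linarith

end Pool.Agent.TH224.Cal
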